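import Pool.Agent.Lib.MP_a785f2_an.CX3.Fin

open MeasureTheory Pool.Agent.Lib.MP_a785f2_an
open scoped NNReal

/-- For every `n ≥ 3` and `1/n < β ≤ 1/2` there are a bounded map `u ∈ W^{1,n}(B^n, ℝ^{n+2})` with
weak gradient `G` and an antisymmetric potential `Ω ∈ L^n(B^n)` such that `u` is a weak solution
of the `n`-Laplace system with potential `Ω` and has no continuous representative. Moreover
`|Ω| ≤ C |∇u|` and `|∇u| ≤ C / (|x| (1 - log |x|)^β)`, and if `β = (1 - g) / (3 + g)` with `g > 0`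
then `Ω = a(u) ∇u` with `a` antisymmetric, bounded and `g`-Hoelder on the target space. -/
theorem Pool.Agent.Results.MP_a785f2_an.Counterexample.result (n : ℕ) (hn : 3 ≤ n) (β : ℝ)
    (h1 : 1 < n * β) (h2 : β ≤ 1 / 2) :
    ∃ (u : Fin (n + 2) → E n → ℝ) (G : Fin (n + 2) → Fin n → E n → ℝ)
      (Ω : Fin n → Fin (n + 2) → Fin (n + 2) → E n → ℝ),
      IsW1n u G ∧ IsAntisymPotential Ω ∧ IsWeakSolution G Ω ∧ ¬ HasContinuousRep u ∧
      (∃ C : ℝ, ∀ᵐ x ∂(ballMeasure n), (∀ i, |u i x| ≤ 1) ∧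
        (∀ α i j, |Ω α i j x| ≤ C * gradNorm G x) ∧
        gradNorm G x ≤ C / (‖x‖ * (1 - Real.log ‖x‖) ^ β)) ∧
      ∀ g : ℝ≥0, 0 < g → β = (1 - g) / (3 + g) →
        ∃ a : Fin (n + 2) → Fin (n + 2) → Fin (n + 2) → E (n + 2) → ℝ,
          (∀ l i j, ∃ C : ℝ≥0, HolderWith C g (a l i j) ∧ ∀ q, |a l i j q| ≤ C) ∧
          (∀ l i j q, a l j i q = -a l i j q) ∧
          ∀ᵐ x ∂(ballMeasure n), ∀ α i j,
            Ω α i j x = ∑ l, a l i j (WithLp.toLp 2 fun k => u k x) * G l α x :=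
  CX3.family n hn β h1 h2
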