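import Pool.Agent.Lib.MP_a785f2_an.UN.Top
import Pool.Agent.Lib.MP_a785f2_an.HS.HSys

open MeasureTheory Pool.Agent.Lib.MP_a785f2_an

/-- Let `n ≥ 3`. Let `N` be a `C^2` submanifold without boundary of `ℝ^m` that is invariant under
the translations by a linear subspace `V` and whose section by the orthogonal complement of `V`
is compact. Let the functions `w^k_{ij}` on `ℝ^m` be bounded, Lipschitz and antisymmetric in
`i, j`. Let `u ∈ W^{1,n}(B^n, N)`, with weak gradient `G`, solve `-div(|∇u|^(n-2) ∇u) = F` weakly,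
where `F` is integrable and the part tangent to `N` at `u(x)` of
`F^i - ∑_{j,α} Ω^α_{ij} |∇u|^(n-2) ∂_α u^j`, with `Ω^α_{ij} = ∑_k w^k_{ij}(u) ∂_α u^k`, is bounded
by `Λ` times the sum of the absolute values of the `n × n` minors of `∇u`.
Then `u` has a continuous representative. -/
theorem Pool.Agent.Results.MP_a785f2_an.GeometricSystems.result (n : ℕ) (hn : 3 ≤ n) (m : ℕ)
    (N : Set (E m)) (hN : IsC2Submanifold N) (V : Submodule ℝ (E m))
    (hV : ∀ p ∈ N, ∀ v ∈ V, p + v ∈ N) (hc : IsCompact (N ∩ Submodule.orthogonal V))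
    (w : Fin m → Fin m → Fin m → E m → ℝ) (Λ : ℝ)
    (hb : ∀ k i j y, |w k i j y| ≤ Λ)
    (hl : ∀ k i j y y', |w k i j y - w k i j y'| ≤ Λ * ‖y - y'‖)
    (hs : ∀ k i j y, w k j i y = -w k i j y)
    (u : Fin m → E n → ℝ) (G : Fin m → Fin n → E n → ℝ) (F : Fin m → E n → ℝ) (hu : IsW1n u G)
    (hv : ∀ᵐ x ∂(ballMeasure n), pt u x ∈ N) (hF : ∀ i, Integrable (F i) (ballMeasure n))
    (ht : ∀ᵐ x ∂(ballMeasure n), ∀ τ ∈ tangentConeAt ℝ N (pt u x),
      |∑ i, (F i x - ∑ j, ∑ α, (∑ k, w k i j (pt u x) * G k α x) *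
        (gradNorm G x ^ (n - 2) * G j α x)) * τ i| ≤
      Λ * (∑ I : Fin n → Fin m, |(Matrix.of fun a α => G (I a) α x).det|) * ‖τ‖)
    (he : ∀ i φ, IsTest φ →
      ∫ x, ∑ α, gradNorm G x ^ (n - 2) * G i α x * pd α φ x ∂(ballMeasure n) =
        ∫ x, F i x * φ x ∂(ballMeasure n)) :
    HasContinuousRep u :=
  UN.top hn N hN V hV hc w Λ hb hl hs u G F hu hv hF ht he

/-- The case `V = 0`, `w = 0`: compact targets. -/
theorem Pool.Agent.Results.MP_a785f2_an.GeometricSystems.compact_case (n : ℕ) (hn : 3 ≤ n) (m : ℕ)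
    (N : Set (E m)) (hc : IsCompact N) (hN : IsC2Submanifold N)
    (u : Fin m → E n → ℝ) (G : Fin m → Fin n → E n → ℝ) (F : Fin m → E n → ℝ) (Λ : ℝ)
    (hu : IsW1n u G) (hv : ∀ᵐ x ∂(ballMeasure n), pt u x ∈ N)
    (hF : ∀ i, Integrable (F i) (ballMeasure n))
    (ht : ∀ᵐ x ∂(ballMeasure n), ∀ τ ∈ tangentConeAt ℝ N (pt u x), |∑ i, F i x * τ i| ≤
      Λ * (∑ I : Fin n → Fin m, |(Matrix.of fun a α => G (I a) α x).det|) * ‖τ‖)
    (he : ∀ i φ, IsTest φ →
      ∫ x, ∑ α, gradNorm G x ^ (n - 2) * G i α x * pd α φ x ∂(ballMeasure n) =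
        ∫ x, F i x * φ x ∂(ballMeasure n)) :
    HasContinuousRep u :=
  Pool.Agent.Results.MP_a785f2_an.GeometricSystems.result n hn m N hN ⊥
    (fun p hp v h => by rwa [(Submodule.mem_bot ℝ).1 h, add_zero]) (by simpa using hc)
    (fun _ _ _ _ => 0) |Λ| (fun _ _ _ _ => by simp) (fun _ _ _ _ _ => by simp; positivity)
    (fun _ _ _ _ => by simp) u G F hu hv hF
    (ht.mono fun x hx τ hτ => by
      simp only [zero_mul, Finset.sum_const_zero, sub_zero]
      exact (hx τ hτ).trans (by gcongr; exact le_abs_self Λ)) he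

/-- Item (b) of the problem file: for every `n ≥ 3`, weakly `n`-harmonic maps into a compact
`C^2` submanifold without boundary are continuous. -/
theorem Pool.Agent.Results.MP_a785f2_an.GeometricSystems.harmonic_case (n : ℕ) (hn : 3 ≤ n)
    (m : ℕ) (N : Set (E m)) (hc : IsCompact N) (hN : IsC2Submanifold N)
    (u : Fin m → E n → ℝ) (G : Fin m → Fin n → E n → ℝ) (hu : IsW1n u G)
    (hh : IsWeaklyHarmonic N u G) : HasContinuousRep u := by
  obtain ⟨hv, F, hF, ht, he⟩ := hh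
  refine Pool.Agent.Results.MP_a785f2_an.GeometricSystems.compact_case n hn m N hc hN u G F 0 hu
    hv hF ?_ he
  filter_upwards [ht] with x hx τ hτ
  rw [hx τ hτ, abs_zero, zero_mul, zero_mul]

/-- The case `V = N = ℝ^m`: no constraint on the values of `u`. -/
theorem Pool.Agent.Results.MP_a785f2_an.GeometricSystems.free_case (n m : ℕ) (hn : 3 ≤ n)
    (w : Fin m → Fin m → Fin m → E m → ℝ) (Λ : ℝ)
    (hb : ∀ k i j y, |w k i j y| ≤ Λ)
    (hl : ∀ k i j y y', |w k i j y - w k i j y'| ≤ Λ * ‖y - y'‖)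
    (hs : ∀ k i j y, w k j i y = -w k i j y)
    (u : Fin m → E n → ℝ) (G : Fin m → Fin n → E n → ℝ) (h : Fin m → E n → ℝ) (hu : IsW1n u G)
    (hm : ∀ i, AEStronglyMeasurable (h i) (ballMeasure n))
    (hh : ∀ i, ∀ᵐ x ∂(ballMeasure n), |h i x| ≤
      Λ * ∑ I : Fin n → Fin m, |(Matrix.of fun a α => G (I a) α x).det|)
    (he : ∀ i φ, IsTest φ →
      ∫ x, ∑ α, gradNorm G x ^ (n - 2) * G i α x * pd α φ x ∂(ballMeasure n) =
        ∫ x, ((∑ j, ∑ α, (∑ k, w k i j (pt u x) * G k α x) * (gradNorm G x ^ (n - 2) * G j α x)) +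
          h i x) * φ x ∂(ballMeasure n)) : HasContinuousRep u := by
  have hΛ : Λ ≤ (m + 1) * |Λ| :=
    (le_abs_self Λ).trans (le_mul_of_one_le_left (abs_nonneg _) (by simp))
  refine Pool.Agent.Results.MP_a785f2_an.GeometricSystems.result n hn m Set.univ UN.univ_sub ⊤
    (fun _ _ _ _ => trivial) (by simp) w ((m + 1) * |Λ|) (fun k i j y => (hb k i j y).trans hΛ)
    (fun k i j y y' => (hl k i j y y').trans (by gcongr)) hs u G _ hu
    (ae_of_all _ fun _ => trivial) (UN.quad_int (by omega) hb hl hu hm hh) ?_ he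
  filter_upwards [ae_all_iff.2 hh] with x hx τ _
  obtain ⟨J, hJ⟩ : ∃ J, ∑ I : Fin n → Fin m, |(Matrix.of fun a α => G (I a) α x).det| = J :=
    ⟨_, rfl⟩
  have J0 : 0 ≤ J := hJ ▸ Finset.sum_nonneg fun _ _ => abs_nonneg _
  simp only [add_sub_cancel_left, hJ] at hx ⊢
  refine (Finset.abs_sum_le_sum_abs _ _).trans ((Finset.sum_le_card_nsmul _ _ (|Λ| * J * ‖τ‖)
    fun i _ => ?_).trans ?_)
  · rw [abs_mul]
    exact mul_le_mul ((hx i).trans (by gcongr; exact le_abs_self Λ)) (PiLp.norm_apply_le τ i)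
      (abs_nonneg _) (by positivity)
  · rw [Finset.card_fin, nsmul_eq_mul, ← mul_assoc, ← mul_assoc]
    gcongr
    simp

/-- The system of the problem file with the potential `Ω = w(u) ∇u`. -/
theorem Pool.Agent.Results.MP_a785f2_an.GeometricSystems.potential_case (n m : ℕ) (hn : 3 ≤ n)
    (w : Fin m → Fin m → Fin m → E m → ℝ) (Λ : ℝ)
    (hb : ∀ k i j y, |w k i j y| ≤ Λ)
    (hl : ∀ k i j y y', |w k i j y - w k i j y'| ≤ Λ * ‖y - y'‖)
    (hs : ∀ k i j y, w k j i y = -w k i j y)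
    (u : Fin m → E n → ℝ) (G : Fin m → Fin n → E n → ℝ) (hu : IsW1n u G)
    (he : IsWeakSolution G fun α i j x => ∑ k, w k i j (pt u x) * G k α x) :
    HasContinuousRep u :=
  Pool.Agent.Results.MP_a785f2_an.GeometricSystems.free_case n m hn w Λ hb hl hs u G
    (fun _ _ => 0) hu (fun _ => aestronglyMeasurable_const)
    (fun i => ae_of_all _ fun x => by
      rw [abs_zero]
      exact mul_nonneg ((abs_nonneg _).trans (hb i i i 0))
        (Finset.sum_nonneg fun _ _ => abs_nonneg _))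
    fun i φ hφ => by simpa only [add_zero] using he i φ hφ

/-- Item (a) of the problem file, word for word: the `H`-system
`-Δ_n u = H(u) ∂_1 u × ⋯ × ∂_n u` with `H` bounded and measurable. The `i`-th
coordinate of the cross product is the determinant with rows `∂_1 u, ..., ∂_n u, e_i`. -/
theorem Pool.Agent.Results.MP_a785f2_an.GeometricSystems.hsystem_case (n : ℕ) (hn : 3 ≤ n)
    (u : Fin (n + 1) → E n → ℝ) (G : Fin (n + 1) → Fin n → E n → ℝ) (hu : IsW1n u G)
    (H : E (n + 1) → ℝ) (hH : Measurable H) (Λ : ℝ) (hb : ∀ y, |H y| ≤ Λ)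
    (he : ∀ i φ, IsTest φ →
      ∫ x, ∑ α, gradNorm G x ^ (n - 2) * G i α x * pd α φ x ∂(ballMeasure n) =
        ∫ x, H (WithLp.toLp 2 fun j => u j x) *
          (Matrix.of (Fin.snoc (fun α j => G j α x) (Pi.single i 1) :
            Fin (n + 1) → Fin (n + 1) → ℝ)).det * φ x ∂(ballMeasure n)) :
    HasContinuousRep u :=
  hsystem u G (fun f Λ hf hb he =>
    Pool.Agent.Results.MP_a785f2_an.GeometricSystems.free_case n (n + 1) hn (fun _ _ _ _ => 0) |Λ|
      (fun _ _ _ _ => by simp) (fun _ _ _ _ _ => by simp; positivity) (fun _ _ _ _ => by simp)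
      u G f hu hf (fun i => (hb i).mono fun _ hx => hx.trans (mul_le_mul_of_nonneg_right
        (le_abs_self Λ) (Finset.sum_nonneg fun _ _ => abs_nonneg _)))
      fun i φ hφ => by simpa only [zero_mul, Finset.sum_const_zero, zero_add] using he i φ hφ)
    hu H hH Λ hb he
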