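import Pool.Agent.Lib.MP_a785f2_an.C2.Sharp

open MeasureTheory Pool.Agent.Lib.MP_a785f2_an

/-- Let `n ≥ 3`, let `m` be any number of components and let `q > 0`. Every weak solution
`u ∈ W^{1,n}(B^n, ℝ^m)`, with weak gradient `G`, of the `n`-Laplace system with an antisymmetric
potential `Ω` whose entries lie in `L^n(B^n)` and in the Lorentz space `L^(n,q)(B^n)` has a
continuous representative if and only if `m ≤ 1` or `q ≤ 2`. -/
theorem Pool.Agent.Results.MP_a785f2_an.Lorentz.result (n : ℕ) (hn : 3 ≤ n) (m : ℕ) (q : ℝ)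
    (hq : 0 < q) :
    (∀ (u : Fin m → E n → ℝ) (G : Fin m → Fin n → E n → ℝ)
      (Ω : Fin n → Fin m → Fin m → E n → ℝ), IsW1n u G → IsAntisymPotential Ω →
      (∀ α i j, InLorentzSpace q (Ω α i j)) → IsWeakSolution G Ω → HasContinuousRep u) ↔
    m ≤ 1 ∨ q ≤ 2 :=
  C2.sharp n hn m q hq
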